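import Pool.Agent.N600.L3.Stm

/-!
Project L3 (helper600), MP_d69e80_al: the growth rate from a subsequence (helper624).
-/

set_option autoImplicit false

namespace Pool.Agent.N624.L3

open Pool.Agent.N600.L3 Filter Topology
open scoped Pointwise

universe u

theorem t_rho : S_RHO.{u} := by
  intro G _ T hT h1 K p hK h
  have hlim : Tendsto (fun R : ℕ => 22 * K * (R + 1)) atTop atTop := by
    apply tendsto_atTop_mono (f := fun R => R) _ tendsto_id
    intro R
    nlinarith
  have h2 := (H746UG.tendsto_rho T).comp hlim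
  refine ge_of_tendsto' h2 ?_
  intro R
  have h3 := h (R + 1)
  show p / 44 ≤ Real.log (Nat.card ↥(T ^ (22 * K * (R + 1)))) / ((22 * K * (R + 1) : ℕ) : ℝ)
  have hK' : (0 : ℝ) < K := by exact_mod_cast hK
  have hpos : (0 : ℝ) < ((22 * K * (R + 1) : ℕ) : ℝ) := by
    push_cast
    positivity
  rw [le_div_iff₀ hpos]
  refine le_trans (le_of_eq ?_) h3
  push_cast
  ring

end Pool.Agent.N624.L3
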